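import Pool.Agent.Q100.CT.Stm

set_option autoImplicit false

namespace Pool.Agent.Q174.CT

open Pool.Agent.Q100.CT

section
variable {H : Type} [Group H] {S : Set H} {n : ℕ} {f : Fin n → H}

/-- The Cayley graph. -/
def Ga (S : Set H) : SimpleGraph H := SimpleGraph.fromRel (fun g h : H => ∃ s ∈ S, h = g * s)

theorem ga_adj (g h : H) : (Ga S).Adj g h ↔ g ≠ h ∧ ((∃ s ∈ S, h = g * s) ∨ ∃ s ∈ S, g = h * s) := by
  unfold Ga
  rw [SimpleGraph.fromRel_adj]

/-- A short walk from `g` to `g * p w`. -/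
theorem walk_list (hf : Set.range f = S) (L : List (Fin n × Bool)) : ∀ g g' : H,
    g' = g * FreeGroup.lift f (FreeGroup.mk L) →
    ∃ q : (Ga S).Walk g g', q.length ≤ L.length := by
  induction L with
  | nil =>
    intro g g' h
    rw [← FreeGroup.one_eq_mk, map_one, mul_one] at h
    subst h
    exact ⟨SimpleGraph.Walk.nil, le_refl _⟩
  | cons a L ih =>
    intro g g' h
    obtain ⟨i, b⟩ := a
    have hi : f i ∈ S := hf ▸ Set.mem_range_self i
    have h2 : g' = g * (cond b (f i) (f i)⁻¹) * FreeGroup.lift f (FreeGroup.mk L) := by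
      rw [h, FreeGroup.lift_mk, FreeGroup.lift_mk, List.map_cons, List.prod_cons, mul_assoc]
    by_cases hg : g = g * (cond b (f i) (f i)⁻¹)
    · rw [← hg] at h2
      obtain ⟨q, hq⟩ := ih g g' h2
      exact ⟨q, hq.trans (by simp)⟩
    · obtain ⟨q, hq⟩ := ih _ g' h2
      have hadj : (Ga S).Adj g (g * (cond b (f i) (f i)⁻¹)) := by
        rw [ga_adj]
        refine ⟨hg, ?_⟩
        cases b with
        | true => exact Or.inl ⟨f i, hi, rfl⟩
        | false => exact Or.inr ⟨f i, hi, by simp⟩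
      refine ⟨SimpleGraph.Walk.cons hadj q, ?_⟩
      rw [SimpleGraph.Walk.length_cons, List.length_cons]
      omega

theorem walk_word (hf : Set.range f = S) (g : H) (w : FreeGroup (Fin n)) :
    ∃ q : (Ga S).Walk g (g * FreeGroup.lift f w), q.length ≤ w.norm := by
  apply walk_list hf w.toWord
  rw [FreeGroup.mk_toWord]

/-- A walk gives a short word. -/
theorem word_walk (hf : Set.range f = S) {g g' : H} (q : (Ga S).Walk g g') :
    ∃ w : FreeGroup (Fin n), w.norm ≤ q.length ∧ g' = g * FreeGroup.lift f w := by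
  induction q with
  | nil => exact ⟨1, by simp, by simp⟩
  | cons h q ih =>
    rename_i u v w'
    obtain ⟨w, h1, h2⟩ := ih
    rw [ga_adj] at h
    obtain ⟨-, h⟩ := h
    obtain ⟨z, hz1, hz2⟩ : ∃ z : FreeGroup (Fin n), z.norm ≤ 1 ∧ v = u * FreeGroup.lift f z := by
      rcases h with ⟨s, hs, h3⟩ | ⟨s, hs, h3⟩
      · rw [← hf] at hs
        obtain ⟨i, rfl⟩ := hs
        exact ⟨FreeGroup.of i, by rw [FreeGroup.norm_of], by rw [FreeGroup.lift_apply_of]; exact h3⟩
      · rw [← hf] at hs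
        obtain ⟨i, rfl⟩ := hs
        refine ⟨(FreeGroup.of i)⁻¹, by rw [FreeGroup.norm_inv_eq, FreeGroup.norm_of], ?_⟩
        rw [map_inv, FreeGroup.lift_apply_of, h3]
        group
    refine ⟨z * w, ?_, ?_⟩
    · have := FreeGroup.norm_mul_le z w
      rw [SimpleGraph.Walk.length_cons]
      omega
    · rw [map_mul, h2, hz2, mul_assoc]

end

/-- Cayley graphs of quotients of free groups. -/
theorem cay : S_cay := by
  intro H _ S hS hcl
  obtain ⟨n, f, hf⟩ : ∃ (n : ℕ) (f : Fin n → H), Set.range f = S := by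
    have := hS.fintype
    let e := Fintype.equivFin S
    refine ⟨Fintype.card S, fun i => (e.symm i : H), ?_⟩
    rw [show (fun i => (e.symm i : H)) = (Subtype.val ∘ e.symm) from rfl, Set.range_comp,
      e.symm.range_eq_univ, Set.image_univ, Subtype.range_coe]
  have hsurj : Function.Surjective (FreeGroup.lift f) := by
    rw [← MonoidHom.range_eq_top, FreeGroup.range_lift_eq_closure, hf, hcl]
  have hcon : (Ga S).Connected := by
    have : Nonempty H := ⟨1⟩
    refine ⟨fun g h => ?_⟩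
    obtain ⟨w, hw⟩ := hsurj (g⁻¹ * h)
    obtain ⟨q, -⟩ := walk_word hf g w
    rw [hw, mul_inv_cancel_left] at q
    exact ⟨q⟩
  refine ⟨hcon, n, FreeGroup.lift f, hsurj, fun r u v => ?_⟩
  change (Ga S).dist _ _ ≤ r ↔ _
  constructor
  · intro h
    obtain ⟨q, hq⟩ := hcon.exists_walk_length_eq_dist (FreeGroup.lift f u) (FreeGroup.lift f v)
    obtain ⟨w, h1, h2⟩ := word_walk hf q
    refine ⟨w, h1.trans (hq ▸ h), ?_⟩
    rw [MonoidHom.mem_ker, map_mul, map_mul, map_inv, h2]
    group
  · rintro ⟨w, h1, h2⟩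
    rw [MonoidHom.mem_ker, map_mul, map_mul, map_inv] at h2
    have h3 : FreeGroup.lift f v = FreeGroup.lift f u * FreeGroup.lift f w := by
      rw [mul_assoc, inv_mul_eq_one] at h2
      exact h2
    obtain ⟨q, hq⟩ := walk_word hf (FreeGroup.lift f u) w
    rw [h3]
    exact (SimpleGraph.dist_le q).trans (hq.trans h1)

end Pool.Agent.Q174.CT
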